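import Mathlib
import Pool.Agent.V11269.BadTorusDefs

/-!
A non-singular `2 × 1` matrix `A` and a one-dimensional algebraic measure `μ` on `T^2` with
`μ (Bad_A) = 1` whose support is not contained in `Bad_A`.
-/

namespace Pool.Agent.Results.MP_f446af_nt.SupportNotInBad

open MeasureTheory Pool.Agent.V11269.BadTorus

/-- There are a non-singular `2 × 1` matrix `A` and the Haar probability measure `μ` of a coset `C`
of a one-dimensional subtorus of `T^2` with `μ (Bad_A) = 1` and `C ⊄ Bad_A`. -/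
theorem result : ∃ (A : Matrix (Fin 2) (Fin 1) ℝ) (μ : Measure (Torus 2)) (C : Set (Torus 2)),
    ¬ Singular A ∧ AlgebraicOn 1 μ C ∧ μ (Bad A) = 1 ∧ ¬ C ⊆ Bad A := by
  refine ⟨mat, _, _, not_singular, ⟨0, incl, incl_cont, incl_inj, rfl, rfl⟩, measure_bad, ?_⟩
  intro h
  exact zero_not_mem_bad (h ⟨0, by simp⟩)

end Pool.Agent.Results.MP_f446af_nt.SupportNotInBad
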